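import Pool.Agent.H25.BCE.Stmts

set_option autoImplicit false

namespace Pool.Agent.H4.BCE

open Pool.Agent.H25.BCE
open Pool.Agent.H73 (P V ex ey pb solA solG mu0 Gam lin)

theorem half_mem : ((1 / 2, 1 / 2) : ℝ × ℝ) ∈ Gam := by
  rw [Pool.Agent.H73.mem_Gam 0]
  refine ⟨⟨1, ?_⟩, ⟨1, ?_⟩⟩
  · rw [Pool.Agent.H73.lin_zero]; norm_num
  · rw [show (0 : ℤ) + 1 = 1 by ring, Pool.Agent.H73.lin_one]
    unfold Pool.Agent.H73.cA Pool.Agent.H73.cB
    push_cast; ring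

theorem five_le_exp : (5 : ℝ) ≤ Real.exp mu0 := by
  unfold mu0
  rw [Real.exp_log (by positivity)]
  have := Pool.Agent.H73.sqrt2_gt
  linarith

theorem CN1_thm (hLA1 : LA1Stmt) : CN1Stmt := by
  refine ⟨(1 / 2, 1 / 2), half_mem, 1 / 4, by norm_num, ?_⟩
  intro m hm n n' hn hn' a ha hEq
  by_contra hne
  set E : ℝ := Real.exp (mu0 * m / 2) with hE
  have hE0 : 0 < E := Real.exp_pos _
  have hL : Real.exp (mu0 * m) = E ^ 2 := by
    rw [hE, ← Real.exp_nat_mul]; congr 1; push_cast; ring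
  have hL5 : (5 : ℝ) ≤ Real.exp (mu0 * m) := by
    have h1 : mu0 * 1 ≤ mu0 * m := by
      apply mul_le_mul_of_nonneg_left _ Pool.Agent.H73.mu0_pos.le
      exact_mod_cast hm
    calc (5 : ℝ) ≤ Real.exp mu0 := five_le_exp
      _ ≤ Real.exp (mu0 * m) := Real.exp_le_exp.2 (by linarith)
  set L : ℝ := Real.exp (mu0 * m) with hLdef
  have hLi : Real.exp (-(mu0 * m)) = L⁻¹ := by rw [Real.exp_neg]
  have h1 := congrArg Prod.fst hEq
  have h2 := congrArg Prod.snd hEq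
  simp only [Prod.fst_sub, Prod.snd_sub, Prod.smul_fst, Prod.smul_snd, smul_eq_mul, sc] at h1 h2
  have e1 : ((m : ℤ) : ℝ) = (m : ℝ) := by norm_cast
  rw [e1, ← hLdef] at h1
  rw [e1, hLi] at h2
  set d : ℝ := (n : ℝ) - n' with hd
  have hd0 : d ≠ 0 := by
    rw [hd, sub_ne_zero]
    exact_mod_cast hne
  have h1' : d / 2 = (1 - L) * a.1 := by rw [hd]; linarith
  have h2' : d / 2 = (1 - L⁻¹) * a.2 := by rw [hd]; linarith
  have ha0 : a ≠ 0 := by
    intro h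
    rw [h] at h1'
    simp at h1'
    exact hd0 h1'
  have h3 := hLA1 a ha ha0
  have hLpos : 0 < L := Real.exp_pos _
  have hLinv : L⁻¹ ≤ 1 / 5 := by
    rw [inv_eq_one_div]
    exact one_div_le_one_div_of_le (by norm_num) hL5
  have h4 : d ^ 2 / 4 = (L - 1) * (1 - L⁻¹) * |a.1 * a.2| := by
    have h5 : d ^ 2 / 4 = (1 - L) * (1 - L⁻¹) * (a.1 * a.2) := by
      calc d ^ 2 / 4 = (d / 2) * (d / 2) := by ring
        _ = ((1 - L) * a.1) * ((1 - L⁻¹) * a.2) := by rw [← h1', ← h2']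
        _ = _ := by ring
    have h6 : |d ^ 2 / 4| = d ^ 2 / 4 := abs_of_nonneg (by positivity)
    rw [← h6, h5, abs_mul, abs_mul, abs_of_nonpos (show 1 - L ≤ 0 by linarith),
      abs_of_nonneg (show 0 ≤ 1 - L⁻¹ by linarith)]
    ring
  have h7 : L / 2 ≤ (L - 1) * (1 - L⁻¹) := by
    have h8 : (L - 1) * (4 / 5) ≤ (L - 1) * (1 - L⁻¹) :=
      mul_le_mul_of_nonneg_left (by linarith) (by linarith)
    linarith
  have h9 : L / 2 * (1 / 8) ≤ d ^ 2 / 4 := by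
    rw [h4]
    exact mul_le_mul h7 h3 (by norm_num) (by linarith)
  have h10 : |d| ≤ 1 / 4 * E := by
    have hn0 : (0 : ℝ) ≤ n := Nat.cast_nonneg n
    have hn0' : (0 : ℝ) ≤ n' := Nat.cast_nonneg n'
    rw [abs_le, hd]
    constructor <;> linarith
  have h11 : d ^ 2 ≤ (1 / 4 * E) ^ 2 := by
    rw [← sq_abs d]
    exact pow_le_pow_left₀ (abs_nonneg d) h10 2
  rw [hL] at h9
  nlinarith [sq_pos_of_pos hE0]

end Pool.Agent.H4.BCE
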