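import Pool.Agent.H25.BCE.Stmts

set_option autoImplicit false

namespace Pool.Agent.H4.BCE

open Pool.Agent.H25.BCE
open Pool.Agent.H73 (P V ex ey pb solA solG mu0 Gam lin)

/-- congruence modulo `(1 - A^m) Gam` -/
def Cg (m : ℤ) (x y : ℝ × ℝ) : Prop := ∃ a ∈ Gam, x - y = a - sc m a

theorem Cg.refl (m : ℤ) (x : ℝ × ℝ) : Cg m x x :=
  ⟨0, Gam.zero_mem, by ext <;> simp [sc]⟩

theorem sc_sub (l : ℤ) (a b : ℝ × ℝ) : sc l (a - b) = sc l a - sc l b := by
  rw [sub_eq_add_neg, sc_add, sc_neg, ← sub_eq_add_neg]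

theorem Cg.symm {m : ℤ} {x y : ℝ × ℝ} (h : Cg m x y) : Cg m y x := by
  obtain ⟨a, ha, e⟩ := h
  refine ⟨-a, Gam.neg_mem ha, ?_⟩
  rw [sc_neg]
  have : y - x = -(x - y) := by abel
  rw [this, e]; abel

theorem Cg.trans {m : ℤ} {x y z : ℝ × ℝ} (h : Cg m x y) (h' : Cg m y z) : Cg m x z := by
  obtain ⟨a, ha, e⟩ := h
  obtain ⟨b, hb, e'⟩ := h'
  refine ⟨a + b, Gam.add_mem ha hb, ?_⟩
  rw [sc_add]
  have : x - z = (x - y) + (y - z) := by abel
  rw [this, e, e']; abel

theorem Cg.sc {m : ℤ} {x y : ℝ × ℝ} (l : ℤ) (h : Cg m x y) :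
    Cg m (Pool.Agent.H25.BCE.sc l x) (Pool.Agent.H25.BCE.sc l y) := by
  obtain ⟨a, ha, e⟩ := h
  refine ⟨Pool.Agent.H25.BCE.sc l a, sc_mem l ha, ?_⟩
  rw [← sc_sub, e, sc_sub, sc_sc, sc_sc, add_comm]

theorem Cg.one (m : ℤ) {x : ℝ × ℝ} (hx : x ∈ Gam) : Cg m x (Pool.Agent.H25.BCE.sc m x) :=
  ⟨x, hx, rfl⟩

theorem Cg.pow (m : ℤ) {x : ℝ × ℝ} (hx : x ∈ Gam) (k : ℕ) :
    Cg m x (Pool.Agent.H25.BCE.sc (k * m) x) := by
  induction k with
  | zero => simp only [Nat.cast_zero, zero_mul, sc_zero]; exact Cg.refl m x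
  | succ k ih =>
    refine ih.trans ?_
    have h := (Cg.one m hx).sc (k * m)
    rw [sc_sc] at h
    have e : (k : ℤ) * m + m = ((k + 1 : ℕ) : ℤ) * m := by push_cast; ring
    rw [e] at h
    exact h

theorem Cg.zpow (m : ℤ) {x : ℝ × ℝ} (hx : x ∈ Gam) (k : ℤ) :
    Cg m x (Pool.Agent.H25.BCE.sc (k * m) x) := by
  obtain ⟨n, rfl | rfl⟩ := k.eq_nat_or_neg
  · exact Cg.pow m hx n
  · have h := ((Cg.pow m hx n).sc (-(n * m))).symm
    rw [sc_sc] at h
    have e : -((n : ℤ) * m) + n * m = 0 := by ring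
    rw [e, sc_zero] at h
    have e' : -(n : ℤ) * m = -(n * m) := by ring
    rw [e']
    exact h

theorem dk_inj {l j l' j' : ℤ} {a b a' b' : ℝ × ℝ} (h : dk l j a b = dk l' j' a' b') :
    a = a' ∧ l = l' := by
  have h1 := congrArg (fun g : P 3 ≃ᵃ[ℝ] P 3 => (g 0).1) h
  simp only [dk_apply, map_zero, add_zero, trn] at h1
  have h2 := congrFun h1 0
  have h3 := congrFun h1 1
  have h4 := congrFun h1 2
  simp at h2 h3 h4
  exact ⟨Prod.ext h2 h3, h4⟩

theorem CN2_thm (hCN1 : CN1Stmt) : CN2Stmt := by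
  obtain ⟨e, he, c, hc, H⟩ := hCN1
  refine ⟨c, hc, ?_⟩
  intro m hm
  have hmem : ∀ n : ℕ, (n : ℝ) • e ∈ Gam := by
    intro n
    rw [Nat.cast_smul_eq_nsmul]
    exact Gam.nsmul_mem he n
  have hg : ∀ n : ℕ, dk m 0 ((n : ℝ) • e) 0 ∈ G0 := fun n => dk_mem (hmem n) Gam.zero_mem
  set f : ℕ → ConjClasses G0 := fun n => ConjClasses.mk ⟨dk m 0 ((n : ℝ) • e) 0, hg n⟩ with hf
  set X : ℝ := c * Real.exp (mu0 * m / 2) with hX
  have hX0 : 0 ≤ X := by positivity
  classical
  set s : Finset ℕ := Finset.range (⌊X⌋₊ + 1) with hs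
  have hmemS : ∀ n ∈ s, (n : ℝ) ≤ X := by
    intro n hn
    rw [hs, Finset.mem_range] at hn
    exact (Nat.le_floor_iff hX0).1 (by omega)
  refine ⟨s.image f, ?_, ?_⟩
  · intro C hC
    obtain ⟨n, -, rfl⟩ := Finset.mem_image.1 hC
    exact ⟨(n : ℝ) • e, hmem n, hg n, rfl⟩
  · -- conjugate elements
    have hconj : ∀ n n0 : ℕ, f n = f n0 → ∃ l : ℤ, Cg m ((n : ℝ) • e) (sc l ((n0 : ℝ) • e)) := by
      intro n n0 h
      rw [hf] at h
      simp only [ConjClasses.mk_eq_mk_iff_isConj] at h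
      obtain ⟨y, hy⟩ := isConj_iff.1 h.symm
      obtain ⟨g, hgm⟩ := y
      obtain ⟨l, j, a, b, ha, hb, rfl⟩ := hgm
      have h1 : dk l j a b * dk m 0 ((n0 : ℝ) • e) 0 = dk m 0 ((n : ℝ) • e) 0 * dk l j a b := by
        have h2 := congrArg Subtype.val hy
        simp only [Subgroup.coe_mul, InvMemClass.coe_inv] at h2
        rw [← h2]; group
      rw [dk_mul, dk_mul] at h1
      have h3 := (dk_inj h1).1
      refine ⟨l, a, ha, ?_⟩
      have h4 : (n : ℝ) • e = (a + sc l ((n0 : ℝ) • e)) - sc m a := by rw [h3]; abel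
      rw [h4]; abel
    have hfib : ∀ C ∈ s.image f, (s.filter fun n => f n = C).card ≤ m := by
      intro C hC
      obtain ⟨n0, hn0, rfl⟩ := Finset.mem_image.1 hC
      have hex : ∀ n : ℕ, ∃ l : ℤ, f n = f n0 → Cg m ((n : ℝ) • e) (sc l ((n0 : ℝ) • e)) := by
        intro n
        by_cases h : f n = f n0
        · obtain ⟨l, hl⟩ := hconj n n0 h
          exact ⟨l, fun _ => hl⟩
        · exact ⟨0, fun h' => absurd h' h⟩
      choose lf hlf using hex
      have hm0 : (0 : ℤ) < m := by exact_mod_cast hm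
      have hcard : (s.filter fun n => f n = f n0).card ≤ (Finset.range m).card := by
        apply Finset.card_le_card_of_injOn (fun n => (lf n % (m : ℤ)).toNat)
        · intro n _
          simp only [Finset.coe_range, Set.mem_Iio]
          have h1 := Int.emod_nonneg (lf n) hm0.ne'
          have h2 := Int.emod_lt_of_pos (lf n) hm0
          omega
        · intro n hn n' hn' heq
          simp only [Finset.coe_filter, Set.mem_ofPred_eq] at hn hn'
          have h1 := Int.emod_nonneg (lf n) hm0.ne'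
          have h1' := Int.emod_nonneg (lf n') hm0.ne'
          have h2 : lf n % (m : ℤ) = lf n' % (m : ℤ) := by
            simp only at heq
            omega
          obtain ⟨k, hk⟩ : ∃ k : ℤ, lf n' = lf n + k * m := by
            have h4 : (m : ℤ) ∣ lf n' - lf n := Int.ModEq.dvd h2
            obtain ⟨k, hk⟩ := h4
            exact ⟨k, by rw [mul_comm]; omega⟩
          have c1 := hlf n hn.2
          have c2 := hlf n' hn'.2
          have c3 : Cg m (sc (lf n) ((n0 : ℝ) • e)) (sc (lf n') ((n0 : ℝ) • e)) := by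
            have h5 := (Cg.zpow m (hmem n0) k).sc (lf n)
            rw [sc_sc, ← hk] at h5
            exact h5
          obtain ⟨a, ha, hae⟩ := (c1.trans c3).trans c2.symm
          exact H m hm n n' (hmemS n hn.1) (hmemS n' hn'.1) a ha hae
      rwa [Finset.card_range] at hcard
    have hcount := Finset.card_le_mul_card_image s m hfib
    have h1 : X ≤ (s.card : ℝ) := by
      rw [hs, Finset.card_range]
      push_cast
      exact (Nat.lt_floor_add_one X).le
    have h2 : (s.card : ℝ) ≤ m * ((s.image f).card : ℝ) := by exact_mod_cast hcount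
    have hm0 : (0 : ℝ) < m := by exact_mod_cast hm
    rw [div_le_iff₀ hm0]
    linarith

end Pool.Agent.H4.BCE
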