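import Pool.Agent.H25.BCE.Stmts

set_option autoImplicit false

namespace Pool.Agent.H4.BCE

open scoped ContDiff Topology
open Pool.Agent.H25.BCE
open Pool.Agent.H73 (P V ex ey pb solA solG mu0 Gam lin bk fderiv_of_min)

theorem BB_open : IsOpen BB := by
  have h : BB = ⋃ r : ℤ × Gam, {x : P 3 | En (x + sh r) < dl} := by
    ext x; simp [BB]
  rw [h]
  refine isOpen_iUnion fun r => ?_
  refine isOpen_lt ?_ continuous_const
  have hc : Continuous En := by
    unfold En
    exact (Pool.Agent.H73.solA_contDiff mu0 2).continuous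
  exact hc.comp (continuous_id.add continuous_const)

theorem Ham_off {x : P 3} (hx : x ∉ BB) : Ham x = 0 := by
  unfold Ham
  have h : ∀ r : ℤ × Gam, expNegInvGlue (dl - En (x + sh r)) = 0 := by
    intro r
    have h1 : ¬ En (x + sh r) < dl := fun h2 => hx ⟨r, h2⟩
    exact expNegInvGlue.zero_of_nonpos (by linarith)
  rw [finsum_congr h, finsum_zero, mul_zero]

theorem CIN_thm (h1 : AA1Stmt) (h2 : AA2Stmt) (h3 : AA3Stmt) (h4 : CC2Stmt) : CINStmt := by
  obtain ⟨hAs, -, hAoff, hApos⟩ := h1
  obtain ⟨hAA, hHA⟩ := h2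
  obtain ⟨C, hCs, hCpos, hCoff, hCC, hCind⟩ := h4
  have hAd : ∀ i x, DifferentiableAt ℝ (AA i) x := fun i x =>
    ((hAs i).1.differentiable (by simp)) x
  have hCd : ∀ i x, DifferentiableAt ℝ (C i) x := fun i x =>
    ((hCs i).1.differentiable (by simp)) x
  have hdA : ∀ i, ∀ x ∉ BB, fderiv ℝ (AA i) x = 0 := fun i x hx =>
    fderiv_of_min (hApos i) (hAoff i x hx)
  have hdC : ∀ i, ∀ x ∈ closure BB, fderiv ℝ (C i) x = 0 := fun i x hx =>
    fderiv_of_min (hCpos i) (hCoff i x hx)
  have hdF : ∀ i x, fderiv ℝ (fun y => AA i y + C i y) x = fderiv ℝ (AA i) x + fderiv ℝ (C i) x :=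
    fun i x => fderiv_fun_add (hAd i x) (hCd i x)
  have hdH : ∀ x ∉ closure BB, fderiv ℝ Ham x = 0 := by
    intro x hx
    have h5 : Ham =ᶠ[𝓝 x] fun _ => (0 : ℝ) := by
      filter_upwards [isClosed_closure.isOpen_compl.mem_nhds hx] with y hy
      exact Ham_off fun h6 => hy (subset_closure h6)
    rw [h5.fderiv_eq]
    exact fderiv_const_apply 0
  have hFs : ∀ i, SmoothFn G0 (fun y => AA i y + C i y) := by
    intro i
    refine ⟨(hAs i).1.add (hCs i).1, ?_⟩
    intro g hg x
    show AA i (g x) + C i (g x) = AA i x + C i x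
    rw [(hAs i).2 g hg x, (hCs i).2 g hg x]
  refine ⟨fun i y => AA i y + C i y, hFs, ?_, ?_, ?_⟩
  · intro i j x
    by_cases hx : x ∈ BB
    · have e := hAA i j x
      unfold pb at e ⊢
      rw [hdF, hdF, hdC i x (subset_closure hx), hdC j x (subset_closure hx), add_zero, add_zero]
      exact e
    · have e := hCC i j x
      unfold pb at e ⊢
      rw [hdF, hdF, hdA i x hx, hdA j x hx, zero_add, zero_add]
      exact e
  · intro i x
    have e := hHA i x
    by_cases hx : x ∈ closure BB
    · unfold pb at e ⊢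
      rw [hdF, hdC i x hx, add_zero]
      exact e
    · unfold pb
      rw [hdH x hx]
      simp [bk]
  · refine ⟨{x | LinearIndependent ℝ (fun i => fderiv ℝ (fun y => AA i y + C i y) x)}, ?_, ?_,
      fun x hx => hx⟩
    · have hcont : Continuous (fun x : P 3 => fun i : Fin 3 =>
          fderiv ℝ (fun y => AA i y + C i y) x) := by
        refine continuous_pi fun i => ?_
        exact (hFs i).1.continuous_fderiv (by simp)
      exact (isOpen_setOfPred_linearIndependent (𝕜 := ℝ) (E := P 3 →L[ℝ] ℝ) (ι := Fin 3)).preimage hcont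
    · have key : ∀ x ∈ BB, ∀ N ∈ 𝓝 x, ∃ y ∈ N,
          LinearIndependent ℝ (fun i => fderiv ℝ (fun y => AA i y + C i y) y) := by
        intro x hx N hN
        obtain ⟨y, hy1, hy2, hy3⟩ := h3 x hx N hN
        refine ⟨y, hy1, ?_⟩
        have e : (fun i => fderiv ℝ (fun y => AA i y + C i y) y) = fun i => fderiv ℝ (AA i) y := by
          funext i
          rw [hdF, hdC i y (subset_closure hy2), add_zero]
        rw [e]; exact hy3
      intro x
      rw [mem_closure_iff_nhds]
      intro N hN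
      by_cases hx : x ∈ closure BB
      · obtain ⟨U, hUN, hUo, hxU⟩ := mem_nhds_iff.1 hN
        obtain ⟨x', hx'U, hx'B⟩ := (mem_closure_iff.1 hx) U hUo hxU
        obtain ⟨y, hy1, hy2⟩ := key x' hx'B U (hUo.mem_nhds hx'U)
        exact ⟨y, hUN hy1, hy2⟩
      · obtain ⟨y, hy1, hy2, hy3⟩ := hCind x hx N hN
        refine ⟨y, hy1, ?_⟩
        show LinearIndependent ℝ (fun i => fderiv ℝ (fun y => AA i y + C i y) y)
        have e : (fun i => fderiv ℝ (fun y => AA i y + C i y) y) = fun i => fderiv ℝ (C i) y := by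
          funext i
          rw [hdF, hdA i y (fun h6 => hy2 (subset_closure h6)), zero_add]
        rw [e]; exact hy3

end Pool.Agent.H4.BCE
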